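import Pool.Agent.L0h58.HY.Stm

/-!
# Board HY, module NONX: the explicit function is computed in one pass with `g` guesses
-/

set_option autoImplicit false

namespace Pool.Agent.L0h95.HY

open Finset Polynomial Pool.Agent.L0h32.LT Pool.Agent.L0h32.LT2 Pool.Agent.L0h58.HX
  Pool.Agent.L0h58.HY

/-- the states -/
abbrev Vt (α F : Type) : Type := α × F × (Fin 6 → F) × (Fin 6 → F)

section prog

variable {α F : Type} [CommRing F] (A : α → F) (θ : F) (n ρ : ℕ)

/-- the windows at the beginning of a step -/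
def w1 (r : ℕ) (v : Vt α F) (c : Fin 6) : F := if r = 0 then A v.1 * v.2.2.1 c else v.2.2.1 c

/-- a step inside a block -/
def stp (r : ℕ) (v : Vt α F) (x : F) : Vt α F :=
  (v.1, v.2.1,
    fun c => w1 A r v c + (if (c : ℕ) = r / ρ then x else 0) +
      (if 6 + (c : ℕ) = r / ρ then x else 0) * v.2.1,
    fun c => v.2.2.2 c + (if 12 = r / ρ then x else 0) * w1 A r v c)

/-- a step -/
def nx (p : ℕ) (v : Vt α F) (b : Bool) : Vt α F :=
  if p < n then (v.1, v.2.1 + bv b * A v.1 ^ p, v.2.2)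
  else if (p - n) / (13 * ρ) < n then
    stp A ρ ((p - n) % (13 * ρ)) v (bv b * θ ^ ((p - n) % (13 * ρ) % ρ))
  else v

variable (u : α) (b : ℕ → Bool)

/-- the state after `p` steps -/
def rn (p : ℕ) : Vt α F := (List.range p).foldl (fun v p => nx A θ n ρ p v (b p)) (u, 0, 0, 0)

theorem rn_succ (p : ℕ) : rn A θ n ρ u b (p + 1) = nx A θ n ρ p (rn A θ n ρ u b p) (b p) := by
  unfold rn
  rw [List.range_succ, List.foldl_append]
  rfl

theorem rn_one (p : ℕ) (hp : p ≤ n) :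
    rn A θ n ρ u b p = (u, ∑ i ∈ range p, bv (b i) * A u ^ i, 0, 0) := by
  induction p with
  | zero =>
    unfold rn
    simp
  | succ p ih =>
    rw [rn_succ, ih (by omega)]
    unfold nx
    rw [if_pos (by omega), sum_range_succ]

/-- the number of the bits of the element `τ` which have been read -/
def cnt (τ r : ℕ) : ℕ := min ρ (r - τ * ρ)

/-- the part of the element `τ` which has been read -/
def sp (i τ r : ℕ) : F := ∑ j ∈ range (cnt ρ τ r), bv (b (n + (13 * i + τ) * ρ + j)) * θ ^ j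

theorem sp_zero (i τ : ℕ) : sp θ n ρ b i τ 0 = 0 := by
  unfold sp cnt
  simp

theorem sp_full (i τ r : ℕ) (hr : (τ + 1) * ρ ≤ r) : sp θ n ρ b i τ r = ch θ n ρ b i τ := by
  unfold sp cnt ch
  have h1 : (τ + 1) * ρ = τ * ρ + ρ := by ring
  rw [Nat.min_eq_left (by omega)]

theorem sp_succ (i τ r : ℕ) (hρ : 0 < ρ) : sp θ n ρ b i τ (r + 1) = sp θ n ρ b i τ r +
    (if τ = r / ρ then bv (b (n + 13 * ρ * i + r)) * θ ^ (r % ρ) else 0) := by
  obtain ⟨t, ht⟩ : ∃ t, t = r / ρ := ⟨_, rfl⟩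
  obtain ⟨j, hj⟩ : ∃ j, j = r % ρ := ⟨_, rfl⟩
  have hr : r = t * ρ + j := by
    rw [ht, hj, mul_comm]
    exact (Nat.div_add_mod r ρ).symm
  have hj' : j < ρ := by
    rw [hj]
    exact Nat.mod_lt _ hρ
  rw [← ht, ← hj]
  rcases lt_trichotomy τ t with h | h | h
  · rw [if_neg (by omega), add_zero]
    have h1 : (τ + 1) * ρ ≤ t * ρ := Nat.mul_le_mul_right _ h
    rw [sp_full θ n ρ b i τ (r + 1) (by omega), sp_full θ n ρ b i τ r (by omega)]
  · subst h
    rw [if_pos rfl]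
    have c1 : cnt ρ τ (r + 1) = j + 1 := by
      unfold cnt
      omega
    have c2 : cnt ρ τ r = j := by
      unfold cnt
      omega
    have e : n + (13 * i + τ) * ρ + j = n + 13 * ρ * i + r := by
      rw [hr]
      ring
    unfold sp
    rw [c1, c2, sum_range_succ, e]
  · rw [if_neg (by omega), add_zero]
    have h1 : (t + 1) * ρ ≤ τ * ρ := Nat.mul_le_mul_right _ h
    have h2 : (t + 1) * ρ = t * ρ + ρ := by ring
    have c1 : cnt ρ τ (r + 1) = 0 := by
      unfold cnt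
      omega
    have c2 : cnt ρ τ r = 0 := by
      unfold cnt
      omega
    unfold sp
    rw [c1, c2]

/-- the state inside a block -/
def bst (i r : ℕ) : Vt α F :=
  (u, pa (A u) n b,
    fun c : Fin 6 => (if r = 0 then wn θ (A u) n ρ b c i else A u * wn θ (A u) n ρ b c i) +
      sp θ n ρ b i c r + sp θ n ρ b i (6 + c) r * pa (A u) n b,
    fun c : Fin 6 => ac θ (A u) n ρ b c i + sp θ n ρ b i 12 r * wn θ (A u) n ρ b c (i + 1))

theorem w1_bst (i r : ℕ) (c : Fin 6) : w1 A r (bst A θ n ρ u b i r) c =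
    A u * wn θ (A u) n ρ b c i + sp θ n ρ b i c r + sp θ n ρ b i (6 + c) r * pa (A u) n b := by
  unfold w1 bst
  by_cases hr : r = 0
  · subst hr
    simp only [if_pos, sp_zero, add_zero, zero_mul]
  · simp only [if_neg hr]

theorem w1_last (i r : ℕ) (hr : 12 * ρ ≤ r) (c : Fin 6) : w1 A r (bst A θ n ρ u b i r) c =
    wn θ (A u) n ρ b c (i + 1) := by
  have hc := c.isLt
  have h1 : ((c : ℕ) + 1) * ρ ≤ 12 * ρ := Nat.mul_le_mul_right _ (by omega)
  have h2 : (6 + (c : ℕ) + 1) * ρ ≤ 12 * ρ := Nat.mul_le_mul_right _ (by omega)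
  rw [w1_bst, sp_full θ n ρ b i c r (by omega), sp_full θ n ρ b i (6 + c) r (by omega)]
  rfl

theorem stp_bst (hρ : 0 < ρ) (i r : ℕ) : stp A ρ r (bst A θ n ρ u b i r)
    (bv (b (n + 13 * ρ * i + r)) * θ ^ (r % ρ)) = bst A θ n ρ u b i (r + 1) := by
  have e1 : (fun c : Fin 6 => w1 A r (bst A θ n ρ u b i r) c +
      (if (c : ℕ) = r / ρ then bv (b (n + 13 * ρ * i + r)) * θ ^ (r % ρ) else 0) +
      (if 6 + (c : ℕ) = r / ρ then bv (b (n + 13 * ρ * i + r)) * θ ^ (r % ρ) else 0) *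
        pa (A u) n b) =
      fun c : Fin 6 => (if r + 1 = 0 then wn θ (A u) n ρ b c i else A u * wn θ (A u) n ρ b c i) +
        sp θ n ρ b i c (r + 1) + sp θ n ρ b i (6 + c) (r + 1) * pa (A u) n b := by
    funext c
    rw [w1_bst, sp_succ θ n ρ b i c r hρ, sp_succ θ n ρ b i (6 + c) r hρ, if_neg (Nat.succ_ne_zero r)]
    ring
  have e2 : (fun c : Fin 6 => ac θ (A u) n ρ b c i + sp θ n ρ b i 12 r * wn θ (A u) n ρ b c (i + 1) +
      (if 12 = r / ρ then bv (b (n + 13 * ρ * i + r)) * θ ^ (r % ρ) else 0) *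
        w1 A r (bst A θ n ρ u b i r) c) =
      fun c : Fin 6 => ac θ (A u) n ρ b c i + sp θ n ρ b i 12 (r + 1) * wn θ (A u) n ρ b c (i + 1) := by
    funext c
    rw [sp_succ θ n ρ b i 12 r hρ]
    by_cases h : 12 = r / ρ
    · have h1 : 12 * ρ ≤ r := by
        rw [h]
        exact Nat.div_mul_le_self r ρ
      rw [w1_last A θ n ρ u b i r h1, if_pos h]
      ring
    · rw [if_neg h]
      ring
  show ((u, pa (A u) n b, _, _) : Vt α F) = (u, pa (A u) n b, _, _)
  exact congrArg₂ (fun W U => ((u, pa (A u) n b, W, U) : Vt α F)) e1 e2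

theorem nx_blk (hρ : 0 < ρ) (i r : ℕ) (hi : i < n) (hr : r < 13 * ρ) (v : Vt α F) (x : Bool) :
    nx A θ n ρ (n + 13 * ρ * i + r) v x = stp A ρ r v (bv x * θ ^ (r % ρ)) := by
  unfold nx
  have h0 : n + 13 * ρ * i + r - n = r + 13 * ρ * i := by omega
  have h1 : (r + 13 * ρ * i) / (13 * ρ) = i := by
    rw [Nat.add_mul_div_left _ _ (by omega), Nat.div_eq_of_lt hr, zero_add]
  have h2 : (r + 13 * ρ * i) % (13 * ρ) = r := by
    rw [Nat.add_mul_mod_self_left, Nat.mod_eq_of_lt hr]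
  rw [if_neg (by omega), h0, h1, h2, if_pos hi]

theorem rn_blk (hρ : 0 < ρ) (i : ℕ) (hi : i ≤ n) : rn A θ n ρ u b (n + 13 * ρ * i) =
    (u, pa (A u) n b, fun c : Fin 6 => wn θ (A u) n ρ b c i,
      fun c : Fin 6 => ac θ (A u) n ρ b c i) := by
  induction i with
  | zero =>
    rw [Nat.mul_zero, Nat.add_zero, rn_one A θ n ρ u b n le_rfl]
    rfl
  | succ i ih =>
    have ih' := ih (by omega)
    have h12 : ∀ r, r ≤ 13 * ρ → rn A θ n ρ u b (n + 13 * ρ * i + r) = bst A θ n ρ u b i r := by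
      intro r
      induction r with
      | zero =>
        intro _
        rw [Nat.add_zero, ih']
        unfold bst
        simp only [sp_zero, if_pos, add_zero, zero_mul]
      | succ r ihr =>
        intro hr
        rw [← Nat.add_assoc, rn_succ, ihr (by omega), nx_blk A θ n ρ hρ i r (by omega) (by omega),
          stp_bst A θ n ρ u b hρ]
    have e1 : n + 13 * ρ * (i + 1) = n + 13 * ρ * i + 13 * ρ := by ring
    rw [e1, h12 _ le_rfl]
    have f1 : (fun c : Fin 6 => (if 13 * ρ = 0 then wn θ (A u) n ρ b c i else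
        A u * wn θ (A u) n ρ b c i) + sp θ n ρ b i c (13 * ρ) +
          sp θ n ρ b i (6 + c) (13 * ρ) * pa (A u) n b) =
        fun c : Fin 6 => wn θ (A u) n ρ b c (i + 1) := by
      funext c
      have hc := c.isLt
      rw [if_neg (by omega), sp_full θ n ρ b i c _ (Nat.mul_le_mul_right _ (by omega)),
        sp_full θ n ρ b i (6 + c) _ (Nat.mul_le_mul_right _ (by omega))]
      rfl
    have f2 : (fun c : Fin 6 => ac θ (A u) n ρ b c i +
        sp θ n ρ b i 12 (13 * ρ) * wn θ (A u) n ρ b c (i + 1)) =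
        fun c : Fin 6 => ac θ (A u) n ρ b c (i + 1) := by
      funext c
      rw [sp_full θ n ρ b i 12 _ (Nat.mul_le_mul_right _ (by norm_num))]
      rfl
    exact congrArg₂ (fun W U => ((u, pa (A u) n b, W, U) : Vt α F)) f1 f2

theorem rn_end (hρ : 0 < ρ) (p : ℕ) (hp : n + 13 * ρ * n ≤ p) :
    rn A θ n ρ u b p = rn A θ n ρ u b (n + 13 * ρ * n) := by
  induction p, hp using Nat.le_induction with
  | base => rfl
  | succ p hp ih =>
    rw [rn_succ, ih]
    unfold nx
    rw [if_neg (by omega), if_neg]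
    rw [not_lt, Nat.le_div_iff_mul_le (by omega)]
    have : n * (13 * ρ) = 13 * ρ * n := by ring
    omega

/-- the value of a state -/
def val (v : Vt α F) : F :=
  v.2.2.2 0 * v.2.2.2 3 + v.2.2.2 1 * v.2.2.2 4 + v.2.2.2 2 * v.2.2.2 5

theorem val_rn (hρ : 0 < ρ) (p : ℕ) (hp : n + 13 * ρ * n ≤ p) :
    val (rn A θ n ρ u b p) = vq θ (A u) n ρ b := by
  rw [rn_end A θ n ρ u b hρ p hp, rn_blk A θ n ρ u b hρ n le_rfl]
  rfl

end prog

section hom

variable {R S : Type} [CommRing R] [CommRing S] (φ : R →+* S) (θ a : R) (n ρ : ℕ) (b : ℕ → Bool)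

theorem map_bv (x : Bool) : φ (bv x) = bv x := by
  unfold bv
  split_ifs
  · exact map_one φ
  · exact map_zero φ

theorem map_ch (i τ : ℕ) : φ (ch θ n ρ b i τ) = ch (φ θ) n ρ b i τ := by
  unfold ch
  rw [map_sum]
  refine sum_congr rfl fun j _ => ?_
  rw [map_mul, map_pow, map_bv]

theorem map_pa : φ (pa a n b) = pa (φ a) n b := by
  unfold pa
  rw [map_sum]
  refine sum_congr rfl fun i _ => ?_
  rw [map_mul, map_pow, map_bv]

theorem map_wn (c i : ℕ) : φ (wn θ a n ρ b c i) = wn (φ θ) (φ a) n ρ b c i := by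
  induction i with
  | zero => exact map_zero φ
  | succ i ih =>
    show φ (a * wn θ a n ρ b c i + ch θ n ρ b i c + ch θ n ρ b i (6 + c) * pa a n b) =
      φ a * wn (φ θ) (φ a) n ρ b c i + ch (φ θ) n ρ b i c + ch (φ θ) n ρ b i (6 + c) * pa (φ a) n b
    rw [map_add, map_add, map_mul, map_mul, map_ch, map_ch, map_pa, ih]

theorem map_ac (c i : ℕ) : φ (ac θ a n ρ b c i) = ac (φ θ) (φ a) n ρ b c i := by
  induction i with
  | zero => exact map_zero φ
  | succ i ih =>
    show φ (ac θ a n ρ b c i + ch θ n ρ b i 12 * wn θ a n ρ b c (i + 1)) =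
      ac (φ θ) (φ a) n ρ b c i + ch (φ θ) n ρ b i 12 * wn (φ θ) (φ a) n ρ b c (i + 1)
    rw [map_add, map_mul, map_ch, map_wn, ih]

theorem map_vq : φ (vq θ a n ρ b) = vq (φ θ) (φ a) n ρ b := by
  unfold vq
  rw [map_add, map_add, map_mul, map_mul, map_mul]
  simp only [map_ac]

end hom

/-- the run over the input -/
theorem fold_rn {α F : Type} [CommRing F] (A : α → F) (θ : F) (n ρ : ℕ) (u : α) {N : ℕ}
    (y : Fin N → Bool) :
    (List.finRange N).foldl (fun v (i : Fin N) => nx A θ n ρ (i : ℕ) v (y i)) (u, 0, 0, 0) =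
      rn A θ n ρ u (bit y) N := by
  unfold rn
  have h1 : (List.finRange N).map (fun i : Fin N => (i : ℕ)) = List.range N := by
    apply List.ext_getElem
    · simp
    · intro i h1 h2
      simp
  rw [← h1, List.foldl_map]
  congr 1
  funext v i
  have h2 : bit y (i : ℕ) = y i := by
    unfold bit
    rw [dif_pos i.isLt]
  rw [h2]

/-- **NONX.** -/
theorem t_NONX (hF : S_FLD) : S_NONX := by
  classical
  intro N g hg
  obtain ⟨F, _, _, _, e, θ, hcard, -, hdvd⟩ := hF (2 * g) (by omega)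
  obtain ⟨n, hn⟩ : ∃ n, n = N / (26 * g + 1) := ⟨_, rfl⟩
  have hnN : n + 13 * (2 * g) * n ≤ N := by
    have h1 : N / (26 * g + 1) * (26 * g + 1) ≤ N := Nat.div_mul_le_self _ _
    rw [← hn] at h1
    calc n + 13 * (2 * g) * n = n * (26 * g + 1) := by ring
      _ ≤ N := h1
  let A : (Fin g → Bool) → F := fun u => ∑ j : Fin g, bv (u j) * θ ^ (j : ℕ)
  refine ⟨Vt (Fin g → Bool) F, inferInstance, fun u => (u, 0, 0, 0),
    fun i v x => nx A θ n (2 * g) (i : ℕ) v x, fun v => val v = 0, ?_, ?_⟩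
  · have h1 : Nat.card F = 2 ^ (2 * g) := by
      rw [Nat.card_eq_fintype_card, hcard]
    have h2 : Nat.card (Vt (Fin g → Bool) F) = 2 ^ g * ((2 ^ (2 * g)) * ((2 ^ (2 * g)) ^ 6 *
        (2 ^ (2 * g)) ^ 6)) := by
      rw [Nat.card_prod, Nat.card_prod, Nat.card_prod, Nat.card_fun, Nat.card_fun, h1, Nat.card_fin,
        Nat.card_fin, Nat.card_eq_fintype_card, Fintype.card_bool]
    rw [h2, ← pow_mul, ← pow_add, ← pow_add, ← pow_add]
    exact Nat.pow_le_pow_right (by norm_num) (by omega)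
  · intro y
    have hval : ∀ u, val ((List.finRange N).foldl
        (fun v (i : Fin N) => nx A θ n (2 * g) (i : ℕ) v (y i)) (u, 0, 0, 0)) =
        aeval θ (vq (X : (ZMod 2)[X]) (∑ j : Fin g, bv (u j) * X ^ (j : ℕ)) n (2 * g) (bit y)) := by
      intro u
      rw [fold_rn, val_rn _ _ _ _ _ _ (by omega) _ hnN]
      have h2 := map_vq ((aeval θ : (ZMod 2)[X] →ₐ[ZMod 2] F) : (ZMod 2)[X] →+* F) X
        (∑ j : Fin g, bv (u j) * X ^ (j : ℕ)) n (2 * g) (bit y)
      have h3 : ((aeval θ : (ZMod 2)[X] →ₐ[ZMod 2] F) : (ZMod 2)[X] →+* F) X = θ := aeval_X _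
      have h4 : ((aeval θ : (ZMod 2)[X] →ₐ[ZMod 2] F) : (ZMod 2)[X] →+* F)
          (∑ j : Fin g, bv (u j) * X ^ (j : ℕ)) = A u := by
        rw [map_sum]
        refine sum_congr rfl fun j _ => ?_
        rw [map_mul, map_pow, map_bv, h3]
      rw [h3, h4] at h2
      exact h2.symm
    unfold fx
    rw [decide_eq_true_iff, ← hn]
    refine exists_congr fun u => ?_
    rw [hdvd, ← hval u]

end Pool.Agent.L0h95.HY
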